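import Pool.Agent.Helper91.BP.Up

set_option autoImplicit false

namespace Pool.Agent.Results.MP_332571_pr.TowerGrowth

open Finset Pool.Agent.Helper91.BP

/-- percolation at `p = 1` is certain -/
theorem perc_one (d n : ℕ) :
    1 / 2 ≤ Pr 1 (fun A : Finset (Grid d n) => Percolates d A) := by
  have h := Pr_subset (V := Grid d n) 1 Finset.univ
  rw [one_pow] at h
  have h2 : Pr 1 (fun A : Finset (Grid d n) => Finset.univ ⊆ A) ≤
      Pr 1 (fun A : Finset (Grid d n) => Percolates d A) := by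
    apply Pr_mono (by norm_num) (by norm_num)
    intro A hA v
    exact ⟨0, hA (Finset.mem_univ v)⟩
  linarith

theorem pc_ge {d n : ℕ} (h : ∀ p : ℝ, 0 ≤ p → p ≤ 13 / 50 →
    Pr p (fun A : Finset (Grid d n) => Percolates d A) < 1 / 2) : 13 / 50 ≤ pc d n d := by
  unfold pc
  apply le_csInf
  · exact ⟨1, by norm_num, by norm_num, perc_one d n⟩
  · rintro p ⟨h0, h1, h2⟩
    by_contra hcon
    push Not at hcon
    have := h p h0 hcon.le
    linarith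

theorem pc_le {d n : ℕ}
    (h : 1 / 2 ≤ Pr (1 / 4) (fun A : Finset (Grid d n) => Percolates d A)) :
    pc d n d ≤ 1 / 4 := by
  unfold pc
  apply csInf_le
  · exact ⟨0, fun p hp => hp.1⟩
  · exact ⟨by norm_num, by norm_num, h⟩

/-- `f(d)` grows like a tower of `2`s of height `Θ(d)`. -/
theorem result : ∃ c C : ℝ, 0 < c ∧ c ≤ C ∧ ∃ d₀ : ℕ, ∀ d : ℕ, d₀ ≤ d →
    IsLeast {n : ℕ | 1 ≤ n ∧ pc d n d ≤ 1 / 4} (f d) ∧
    T ⌊c * (d : ℝ)⌋₊ ≤ f d ∧ f d ≤ T ⌈C * (d : ℝ)⌉₊ := by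
  obtain ⟨d0, hlow⟩ := lower
  refine ⟨1 / 8, 4, by norm_num, by norm_num, max d0 8, ?_⟩
  intro d hd
  have hd0 : d0 ≤ d := le_trans (le_max_left _ _) hd
  have hd8 : 8 ≤ d := le_trans (le_max_right _ _) hd
  have hmem : (2 ^ sc d d) ∈ {n : ℕ | 1 ≤ n ∧ pc d n d ≤ 1 / 4} :=
    ⟨Nat.one_le_two_pow, pc_le (perc_prob (by omega))⟩
  have hne : {n : ℕ | 1 ≤ n ∧ pc d n d ≤ 1 / 4}.Nonempty := ⟨_, hmem⟩
  have hleast : IsLeast {n : ℕ | 1 ≤ n ∧ pc d n d ≤ 1 / 4} (f d) := by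
    unfold f
    exact ⟨Nat.sInf_mem hne, fun n hn => Nat.sInf_le hn⟩
  refine ⟨hleast, ?_, ?_⟩
  · have hfl : ⌊1 / 8 * (d : ℝ)⌋₊ ≤ d / 8 := by
      have h1 : ((⌊1 / 8 * (d : ℝ)⌋₊ : ℕ) : ℝ) ≤ 1 / 8 * (d : ℝ) := Nat.floor_le (by positivity)
      have h2 : ((8 * ⌊1 / 8 * (d : ℝ)⌋₊ : ℕ) : ℝ) ≤ (d : ℝ) := by
        push_cast
        linarith
      have h3 : 8 * ⌊1 / 8 * (d : ℝ)⌋₊ ≤ d := by exact_mod_cast h2
      omega
    refine le_trans (T_mono hfl) ?_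
    by_contra hcon
    push Not at hcon
    obtain ⟨h1, h2⟩ := hleast.1
    have h3 := pc_ge (d := d) (n := f d) (hlow d hd0 (f d) h1 hcon.le)
    linarith
  · have hce : ⌈(4 : ℝ) * (d : ℝ)⌉₊ = 4 * d := by
      have : (4 : ℝ) * (d : ℝ) = ((4 * d : ℕ) : ℝ) := by push_cast; ring
      rw [this, Nat.ceil_natCast]
    rw [hce]
    calc f d ≤ 2 ^ sc d d := hleast.2 hmem
      _ ≤ 2 ^ T (2 * d + d) := Nat.pow_le_pow_right (by norm_num) (sc_le hd8 d)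
      _ = T (3 * d + 1) := by rw [show 2 * d + d = 3 * d by ring]; rfl
      _ ≤ T (4 * d) := T_mono (by omega)

end Pool.Agent.Results.MP_332571_pr.TowerGrowth
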